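import Mathlib

set_option autoImplicit false

open Finset

namespace Pool.Agent.X109.BR

/-- pairs `(a, d)` with `a, d ≥ 1` and `a + K d ≤ n` -/
def P (K n : ℕ) : Finset (ℕ × ℕ) := (Icc 1 n ×ˢ Icc 1 n).filter (fun p => p.1 + K * p.2 ≤ n)

theorem mem_P {K n : ℕ} (hK : 1 ≤ K) (p : ℕ × ℕ) : p ∈ P K n ↔ 1 ≤ p.1 ∧ 1 ≤ p.2 ∧ p.1 + K * p.2 ≤ n := by
  simp only [P, mem_filter, mem_product, mem_Icc]
  constructor
  · rintro ⟨⟨⟨h1, h2⟩, h3, h4⟩, h5⟩
    exact ⟨h1, h3, h5⟩
  · rintro ⟨h1, h2, h3⟩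
    have : p.2 ≤ K * p.2 := Nat.le_mul_of_pos_left _ hK
    exact ⟨⟨⟨h1, by omega⟩, h2, by omega⟩, h3⟩

/-- the progression is monochromatic -/
def Mono {r : ℕ} (K : ℕ) (χ : ℕ → Fin r) (p : ℕ × ℕ) : Prop :=
  ∀ i ∈ range (K + 1), χ (p.1 + i * p.2) = χ p.1

open Classical in
/-- number of monochromatic progressions, by pairs -/
noncomputable def MP {r : ℕ} (K n : ℕ) (χ : ℕ → Fin r) : ℕ := ((P K n).filter (Mono K χ)).card

/-- the multi-affine form -/
noncomputable def F {r : ℕ} (K n : ℕ) (p : ℕ → Fin r → ℝ) : ℝ :=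
  ∑ q ∈ P K n, ∑ c, ∏ i ∈ range (K + 1), p (q.1 + i * q.2) c

theorem affine {r : ℕ} (K : ℕ) (p : ℕ → Fin r → ℝ) (x0 : ℕ) (h1 : ∑ c, p x0 c = 1)
    (q : ℕ × ℕ) (hq : 1 ≤ q.2) (c' : Fin r) :
    ∏ i ∈ range (K + 1), p (q.1 + i * q.2) c' =
      ∑ c, p x0 c * ∏ i ∈ range (K + 1), (Function.update p x0 (Pi.single c 1)) (q.1 + i * q.2) c' := by
  by_cases h : ∃ i0 ∈ range (K + 1), q.1 + i0 * q.2 = x0
  · obtain ⟨i0, hi0, hx⟩ := h
    rw [← Finset.mul_prod_erase _ _ hi0]
    have e : ∀ c : Fin r, ∏ i ∈ range (K + 1), (Function.update p x0 (Pi.single c 1)) (q.1 + i * q.2) c'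
        = (Pi.single c (1 : ℝ) : Fin r → ℝ) c' * ∏ i ∈ (range (K + 1)).erase i0, p (q.1 + i * q.2) c' := by
      intro c
      rw [← Finset.mul_prod_erase _ _ hi0, hx, Function.update_self]
      congr 1
      apply Finset.prod_congr rfl
      intro i hi
      rw [Function.update_of_ne]
      rw [← hx]
      intro hc
      have : i * q.2 = i0 * q.2 := by omega
      have := Nat.eq_of_mul_eq_mul_right (by omega : 0 < q.2) this
      exact (Finset.mem_erase.1 hi).1 this
    simp_rw [e]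
    rw [hx]
    have : ∀ c : Fin r, p x0 c * ((Pi.single c (1 : ℝ) : Fin r → ℝ) c' * ∏ i ∈ (range (K + 1)).erase i0, p (q.1 + i * q.2) c')
      = (if c' = c then p x0 c * ∏ i ∈ (range (K + 1)).erase i0, p (q.1 + i * q.2) c' else 0) := by
      intro c
      rw [Pi.single_apply]
      split_ifs <;> simp
    simp_rw [this]
    rw [Finset.sum_ite_eq Finset.univ c']
    simp
  · push Not at h
    have e : ∀ c : Fin r, ∏ i ∈ range (K + 1), (Function.update p x0 (Pi.single c 1)) (q.1 + i * q.2) c'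
        = ∏ i ∈ range (K + 1), p (q.1 + i * q.2) c' := by
      intro c
      apply Finset.prod_congr rfl
      intro i hi
      rw [Function.update_of_ne (h i hi)]
    simp_rw [e]
    rw [← Finset.sum_mul, h1, one_mul]

theorem F_affine {r : ℕ} (K n : ℕ) (hK : 1 ≤ K) (p : ℕ → Fin r → ℝ) (x0 : ℕ) (h1 : ∑ c, p x0 c = 1) :
    F K n p = ∑ c, p x0 c * F K n (Function.update p x0 (Pi.single c 1)) := by
  have e : F K n p = ∑ q ∈ P K n, ∑ c', ∑ c, p x0 c *
      ∏ i ∈ range (K + 1), (Function.update p x0 (Pi.single c 1)) (q.1 + i * q.2) c' := by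
    unfold F
    apply Finset.sum_congr rfl
    intro q hq
    apply Finset.sum_congr rfl
    intro c' _
    exact affine K p x0 h1 q ((mem_P hK q).1 hq).2.1 c'
  rw [e]
  unfold F
  simp_rw [Finset.mul_sum]
  rw [Finset.sum_comm' (s := Finset.univ) (t' := P K n) (s' := fun _ => Finset.univ) (t := fun _ => P K n) (by simp)]
  apply Finset.sum_congr rfl
  intro q _
  rw [Finset.sum_comm]

theorem exists_round {r : ℕ} (hr : 0 < r) (K n : ℕ) (hK : 1 ≤ K) (p : ℕ → Fin r → ℝ) (h0 : ∀ x c, 0 ≤ p x c)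
    (h1 : ∀ x, ∑ c, p x c = 1) (S : Finset ℕ) :
    ∃ χ : ℕ → Fin r, F K n (fun x => if x ∈ S then Pi.single (χ x) 1 else p x) ≤ F K n p := by
  induction S using Finset.induction_on with
  | empty => exact ⟨fun _ => ⟨0, hr⟩, by simp⟩
  | insert x0 S hx0 ih =>
    obtain ⟨χ, hχ⟩ := ih
    set p' : ℕ → Fin r → ℝ := fun x => if x ∈ S then Pi.single (χ x) 1 else p x with hp'
    have hp0 : p' x0 = p x0 := by simp [hp', hx0]
    have haff := F_affine K n hK p' x0 (by rw [hp0]; exact h1 x0)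
    obtain ⟨c, hc⟩ : ∃ c, F K n (Function.update p' x0 (Pi.single c 1)) ≤ F K n p' := by
      by_contra hcon
      push Not at hcon
      have : F K n p' < F K n p' := by
        calc F K n p' = ∑ c, p' x0 c * F K n p' := by rw [← Finset.sum_mul, hp0, h1, one_mul]
          _ < ∑ c, p' x0 c * F K n (Function.update p' x0 (Pi.single c 1)) := by
            apply Finset.sum_lt_sum
            · intro c _
              apply mul_le_mul_of_nonneg_left (hcon c).le
              rw [hp0]; exact h0 x0 c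
            · obtain ⟨c, hc, hc'⟩ : ∃ c ∈ (Finset.univ : Finset (Fin r)), 0 < p x0 c := by
                apply Finset.exists_lt_of_sum_lt
                rw [h1]
                simp
              exact ⟨c, hc, mul_lt_mul_of_pos_left (hcon c) (by rw [hp0]; exact hc')⟩
          _ = F K n p' := haff.symm
      exact lt_irrefl _ this
    refine ⟨Function.update χ x0 c, ?_⟩
    have e : (fun x => if x ∈ insert x0 S then (Pi.single (Function.update χ x0 c x) 1 : Fin r → ℝ) else p x)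
        = Function.update p' x0 (Pi.single c 1) := by
      funext x
      by_cases hx : x = x0
      · subst hx
        simp
      · rw [Function.update_of_ne hx, Function.update_of_ne hx]
        simp [hp', hx]
    rw [e]
    exact hc.trans hχ

open Classical in
theorem F_round {r : ℕ} (K n : ℕ) (hK : 1 ≤ K) (χ : ℕ → Fin r) (p : ℕ → Fin r → ℝ) :
    F K n (fun x => if x ∈ Icc 1 n then Pi.single (χ x) 1 else p x) = MP K n χ := by
  unfold F MP
  rw [Finset.card_filter]
  push_cast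
  apply Finset.sum_congr rfl
  intro q hq
  obtain ⟨h1, h2, h3⟩ := (mem_P hK q).1 hq
  have hmem : ∀ i ∈ range (K + 1), q.1 + i * q.2 ∈ Icc 1 n := by
    intro i hi
    rw [mem_Icc]
    have : i ≤ K := by simpa [Nat.lt_succ_iff] using hi
    have := Nat.mul_le_mul_right q.2 this
    constructor <;> omega
  have e : ∀ c : Fin r, ∏ i ∈ range (K + 1), (fun x => if x ∈ Icc 1 n then (Pi.single (χ x) 1 : Fin r → ℝ) else p x) (q.1 + i * q.2) c
      = if ∀ i ∈ range (K + 1), χ (q.1 + i * q.2) = c then 1 else 0 := by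
    intro c
    rw [Finset.prod_congr rfl (g := fun i => if χ (q.1 + i * q.2) = c then (1 : ℝ) else 0)]
    · rw [Finset.prod_ite_zero]
      simp
    · intro i hi
      simp only [hmem i hi, if_true]
      rw [Pi.single_apply]
      simp [eq_comm]
  simp_rw [e]
  by_cases hm : Mono K χ q
  · rw [if_pos hm]
    rw [Finset.sum_eq_single (χ q.1)]
    · exact if_pos hm
    · intro c _ hc
      rw [if_neg]
      intro h
      have := h 0 (by simp)
      apply hc
      simpa using this.symm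
    · simp
  · rw [if_neg hm]
    apply Finset.sum_eq_zero
    intro c _
    rw [if_neg]
    intro h
    apply hm
    intro i hi
    have h0 := h 0 (by simp)
    rw [h i hi]
    simpa using h0.symm

theorem exists_le_F {r : ℕ} (hr : 0 < r) (K n : ℕ) (hK : 1 ≤ K) (p : ℕ → Fin r → ℝ) (h0 : ∀ x c, 0 ≤ p x c)
    (h1 : ∀ x, ∑ c, p x c = 1) : ∃ χ : ℕ → Fin r, (MP K n χ : ℝ) ≤ F K n p := by
  obtain ⟨χ, hχ⟩ := exists_round hr K n hK p h0 h1 (Icc 1 n)
  exact ⟨χ, by rw [← F_round K n hK χ p]; exact hχ⟩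

end Pool.Agent.X109.BR
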