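import Mathlib
import Pool.Agent.X109.BR.A

set_option autoImplicit false

open Finset

namespace Pool.Agent.X109.BR

def e1 (f : ℕ → ℝ) (m : ℕ) : ℝ := ∑ i ∈ range m, f i
def e2 (f : ℕ → ℝ) (m : ℕ) : ℝ := ∑ j ∈ range m, ∑ i ∈ range j, f i * f j

theorem abs_e1 (f : ℕ → ℝ) (hf : ∀ i, |f i| ≤ 1) (m : ℕ) : |e1 f m| ≤ m := by
  unfold e1
  calc |∑ i ∈ range m, f i| ≤ ∑ i ∈ range m, |f i| := Finset.abs_sum_le_sum_abs _ _
    _ ≤ ∑ i ∈ range m, 1 := Finset.sum_le_sum fun i _ => hf i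
    _ = m := by simp

theorem abs_e2 (f : ℕ → ℝ) (hf : ∀ i, |f i| ≤ 1) (m : ℕ) : |e2 f m| ≤ m * m := by
  unfold e2
  calc |∑ j ∈ range m, ∑ i ∈ range j, f i * f j| ≤ ∑ j ∈ range m, |∑ i ∈ range j, f i * f j| :=
        Finset.abs_sum_le_sum_abs _ _
    _ ≤ ∑ j ∈ range m, (m : ℝ) := by
      apply Finset.sum_le_sum
      intro j hj
      calc |∑ i ∈ range j, f i * f j| ≤ ∑ i ∈ range j, |f i * f j| := Finset.abs_sum_le_sum_abs _ _
        _ ≤ ∑ i ∈ range j, 1 := by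
          apply Finset.sum_le_sum
          intro i _
          rw [abs_mul]
          exact mul_le_one₀ (hf i) (abs_nonneg _) (hf j)
        _ = j := by simp
        _ ≤ m := by exact_mod_cast (Finset.mem_range.1 hj).le
    _ = m * m := by simp

theorem prod_expand (m : ℕ) : ∃ C : ℝ, 0 ≤ C ∧ ∀ (f : ℕ → ℝ) (η : ℝ), (∀ i, |f i| ≤ 1) → 0 ≤ η → η ≤ 1 →
    |∏ i ∈ range m, (1 + η * f i) - (1 + η * e1 f m + η ^ 2 * e2 f m)| ≤ C * η ^ 3 := by
  induction m with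
  | zero => exact ⟨0, le_rfl, fun f η _ _ _ => by simp [e1, e2]⟩
  | succ m ih =>
    obtain ⟨C, hC, h⟩ := ih
    refine ⟨2 * C + m * m, by positivity, fun f η hf h0 h1 => ?_⟩
    have h2 := h f η hf h0 h1
    have hE1 : e1 f (m + 1) = e1 f m + f m := by simp [e1, Finset.sum_range_succ]
    have hE2 : e2 f (m + 1) = e2 f m + e1 f m * f m := by
      simp [e1, e2, Finset.sum_range_succ, Finset.sum_mul]
    rw [Finset.prod_range_succ, hE1, hE2]
    have key : (∏ i ∈ range m, (1 + η * f i)) * (1 + η * f m) -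
        (1 + η * (e1 f m + f m) + η ^ 2 * (e2 f m + e1 f m * f m)) =
        (∏ i ∈ range m, (1 + η * f i) - (1 + η * e1 f m + η ^ 2 * e2 f m)) * (1 + η * f m) +
          η ^ 3 * (e2 f m * f m) := by ring
    rw [key]
    have h3 : |1 + η * f m| ≤ 2 := by
      calc |1 + η * f m| ≤ |1| + |η * f m| := abs_add_le _ _
        _ ≤ 1 + 1 := by
          rw [abs_one, abs_mul, abs_of_nonneg h0]
          have := mul_le_one₀ h1 (abs_nonneg _) (hf m)
          linarith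
        _ = 2 := by norm_num
    have h4 : |e2 f m * f m| ≤ m * m := by
      rw [abs_mul]
      calc |e2 f m| * |f m| ≤ (m * m) * 1 :=
            mul_le_mul (abs_e2 f hf m) (hf m) (abs_nonneg _) (by positivity)
        _ = m * m := by ring
    calc _ ≤ |(∏ i ∈ range m, (1 + η * f i) - (1 + η * e1 f m + η ^ 2 * e2 f m)) * (1 + η * f m)| +
          |η ^ 3 * (e2 f m * f m)| := abs_add_le _ _
      _ ≤ C * η ^ 3 * 2 + η ^ 3 * (m * m) := by
        rw [abs_mul, abs_mul, abs_of_nonneg (by positivity : (0 : ℝ) ≤ η ^ 3)]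
        apply add_le_add
        · exact mul_le_mul h2 h3 (abs_nonneg _) (by positivity)
        · exact mul_le_mul_of_nonneg_left h4 (by positivity)
      _ = (2 * C + m * m) * η ^ 3 := by ring

/-- signs of the colours -/
def sg {r : ℕ} (c : Fin r) : ℝ := if (c : ℕ) = 0 then 1 else if (c : ℕ) = 1 then -1 else 0

theorem sum_sg {r : ℕ} (hr : 2 ≤ r) : ∑ c : Fin r, sg c = 0 := by
  obtain ⟨s, rfl⟩ := Nat.exists_eq_add_of_le hr
  rw [show 2 + s = s + 1 + 1 by ring, Fin.sum_univ_succ, Fin.sum_univ_succ]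
  simp [sg]

theorem sum_sg_sq {r : ℕ} (hr : 2 ≤ r) : ∑ c : Fin r, sg c ^ 2 = 2 := by
  obtain ⟨s, rfl⟩ := Nat.exists_eq_add_of_le hr
  rw [show 2 + s = s + 1 + 1 by ring, Fin.sum_univ_succ, Fin.sum_univ_succ]
  simp [sg]
  norm_num

theorem abs_sg {r : ℕ} (c : Fin r) : |sg c| ≤ 1 := by
  unfold sg
  split_ifs <;> simp

/-- probabilities -/
noncomputable def pr {r : ℕ} (η : ℝ) (φ : ℕ → ℝ) (x : ℕ) (c : Fin r) : ℝ := (1 / r) * (1 + η * (sg c * φ x))

theorem pr_nonneg {r : ℕ} (η : ℝ) (h0 : 0 ≤ η) (h1 : η ≤ 1) (φ : ℕ → ℝ) (hφ : ∀ x, |φ x| ≤ 1) (x : ℕ)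
    (c : Fin r) : 0 ≤ pr η φ x c := by
  unfold pr
  have h2 : |η * (sg c * φ x)| ≤ 1 := by
    rw [abs_mul, abs_mul, abs_of_nonneg h0]
    exact mul_le_one₀ h1 (by positivity) (mul_le_one₀ (abs_sg c) (abs_nonneg _) (hφ x))
  have := (abs_le.1 h2).1
  have : 0 ≤ 1 + η * (sg c * φ x) := by linarith
  positivity

theorem pr_sum {r : ℕ} (hr : 2 ≤ r) (η : ℝ) (φ : ℕ → ℝ) (x : ℕ) : ∑ c : Fin r, pr η φ x c = 1 := by
  unfold pr
  rw [← Finset.mul_sum, Finset.sum_add_distrib]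
  have : ∑ c : Fin r, η * (sg c * φ x) = 0 := by
    rw [← Finset.mul_sum, ← Finset.sum_mul, sum_sg hr]; simp
  rw [this]
  have : (r : ℝ) ≠ 0 := by positivity
  simp [this]

theorem F_bound (K : ℕ) : ∃ C : ℝ, 0 ≤ C ∧ ∀ (r n : ℕ) (η : ℝ) (φ : ℕ → ℝ), 2 ≤ r → 0 ≤ η → η ≤ 1 →
    (∀ x, |φ x| ≤ 1) → F (r := r) K n (pr η φ) ≤ (1 / (r : ℝ)) ^ (K + 1) *
      (r * (P K n).card + 2 * η ^ 2 * ∑ q ∈ P K n, e2 (fun i => φ (q.1 + i * q.2)) (K + 1) +
        r * C * η ^ 3 * (P K n).card) := by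
  obtain ⟨C, hC, h⟩ := prod_expand (K + 1)
  refine ⟨C, hC, fun r n η φ hr h0 h1 hφ => ?_⟩
  unfold F
  have key : ∀ q ∈ P K n, ∑ c : Fin r, ∏ i ∈ range (K + 1), pr η φ (q.1 + i * q.2) c ≤
      (1 / (r : ℝ)) ^ (K + 1) * (r + 2 * η ^ 2 * e2 (fun i => φ (q.1 + i * q.2)) (K + 1) + r * C * η ^ 3) := by
    intro q _
    set g : ℕ → ℝ := fun i => φ (q.1 + i * q.2) with hg
    have hc : ∀ c : Fin r, ∏ i ∈ range (K + 1), pr η φ (q.1 + i * q.2) c ≤ (1 / (r : ℝ)) ^ (K + 1) *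
        (1 + η * (sg c * e1 g (K + 1)) + η ^ 2 * (sg c ^ 2 * e2 g (K + 1)) + C * η ^ 3) := by
      intro c
      unfold pr
      rw [Finset.prod_mul_distrib, Finset.prod_const, Finset.card_range]
      apply mul_le_mul_of_nonneg_left _ (by positivity)
      have h2 := h (fun i => sg c * g i) η (fun i => by
        rw [abs_mul]; exact mul_le_one₀ (abs_sg c) (abs_nonneg _) (hφ _)) h0 h1
      have e3 : e1 (fun i => sg c * g i) (K + 1) = sg c * e1 g (K + 1) := by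
        simp [e1, Finset.mul_sum]
      have e4 : e2 (fun i => sg c * g i) (K + 1) = sg c ^ 2 * e2 g (K + 1) := by
        unfold e2
        rw [Finset.mul_sum]
        apply Finset.sum_congr rfl
        intro j _
        rw [Finset.mul_sum]
        apply Finset.sum_congr rfl
        intro i _
        ring
      rw [e3, e4] at h2
      have := (abs_le.1 h2).2
      linarith
    calc ∑ c : Fin r, ∏ i ∈ range (K + 1), pr η φ (q.1 + i * q.2) c ≤ ∑ c : Fin r, (1 / (r : ℝ)) ^ (K + 1) *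
        (1 + η * (sg c * e1 g (K + 1)) + η ^ 2 * (sg c ^ 2 * e2 g (K + 1)) + C * η ^ 3) :=
          Finset.sum_le_sum fun c _ => hc c
      _ = _ := by
        rw [← Finset.mul_sum]
        congr 1
        rw [Finset.sum_add_distrib, Finset.sum_add_distrib, Finset.sum_add_distrib,
          ← Finset.mul_sum, ← Finset.mul_sum, ← Finset.sum_mul, ← Finset.sum_mul, sum_sg hr, sum_sg_sq hr]
        simp
        ring
  calc _ ≤ ∑ q ∈ P K n, (1 / (r : ℝ)) ^ (K + 1) *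
        (r + 2 * η ^ 2 * e2 (fun i => φ (q.1 + i * q.2)) (K + 1) + r * C * η ^ 3) :=
          Finset.sum_le_sum key
    _ = _ := by
      rw [← Finset.mul_sum, Finset.sum_add_distrib, Finset.sum_add_distrib, ← Finset.mul_sum]
      simp only [Finset.sum_const, nsmul_eq_mul]
      ring

theorem card_P (K n : ℕ) (hK : 1 ≤ K) : (P K n).card = ∑ d ∈ Icc 1 (n / K), (n - K * d) := by
  have e : P K n = (Icc 1 (n / K)).biUnion (fun d => (Icc 1 (n - K * d)).image (fun a => (a, d))) := by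
    ext ⟨a, d⟩
    rw [mem_P hK]
    simp only [mem_biUnion, mem_image, mem_Icc, Prod.mk.injEq]
    constructor
    · rintro ⟨h1, h2, h3⟩
      refine ⟨d, ⟨h2, ?_⟩, a, ⟨h1, by omega⟩, rfl, rfl⟩
      rw [Nat.le_div_iff_mul_le (by omega)]
      rw [mul_comm]
      omega
    · rintro ⟨d', ⟨h1, h2⟩, a', ⟨h3, h4⟩, rfl, rfl⟩
      refine ⟨h3, h1, by omega⟩
  rw [e, Finset.card_biUnion]
  · apply Finset.sum_congr rfl
    intro d _
    rw [Finset.card_image_of_injective _ (fun a b h => (Prod.mk.inj h).1)]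
    simp
  · intro x _ y _ hxy
    rw [Function.onFun, Finset.disjoint_left]
    rintro ⟨a, d⟩ h1 h2
    simp only [mem_image, Prod.mk.injEq] at h1 h2
    obtain ⟨_, _, _, rfl⟩ := h1
    obtain ⟨_, _, _, rfl⟩ := h2
    exact hxy rfl

theorem sum_real (K n D : ℕ) (h : K * D ≤ n) :
    ((∑ d ∈ Icc 1 D, (n - K * d) : ℕ) : ℝ) = D * n - K * (D * (D + 1)) / 2 := by
  induction D with
  | zero => simp
  | succ D ih =>
    have h1 : K * D ≤ n := le_trans (Nat.mul_le_mul_left _ (Nat.le_succ D)) h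
    rw [Finset.sum_Icc_succ_top (by omega), Nat.cast_add, ih h1, Nat.cast_sub h]
    push_cast
    ring

theorem card_P_le (K n : ℕ) (hK : 1 ≤ K) : ((P K n).card : ℝ) ≤ (n : ℝ) ^ 2 / (2 * K) := by
  have hKr : (0 : ℝ) < K := by exact_mod_cast hK
  have h1 : K * (n / K) ≤ n := Nat.mul_div_le n K
  rw [card_P K n hK, sum_real K n _ h1, le_div_iff₀ (by positivity)]
  have h2 : (K : ℝ) * ((n / K : ℕ) : ℝ) ≤ n := by exact_mod_cast h1
  have h3 : 0 ≤ (K : ℝ) * ((n / K : ℕ) : ℝ) := by positivity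
  generalize ((n / K : ℕ) : ℝ) = D at *
  nlinarith [sq_nonneg ((n : ℝ) - K * D)]

theorem card_P_ge (K n : ℕ) (hK : 1 ≤ K) : (n : ℝ) ^ 2 / (2 * K) - n ≤ ((P K n).card : ℝ) := by
  have hKr : (0 : ℝ) < K := by exact_mod_cast hK
  have h1 : K * (n / K) ≤ n := Nat.mul_div_le n K
  have h1' : n < K * (n / K + 1) := Nat.lt_mul_div_succ n hK
  rw [card_P K n hK, sum_real K n _ h1]
  have h2 : (K : ℝ) * ((n / K : ℕ) : ℝ) ≤ n := by exact_mod_cast h1
  have h2' : (n : ℝ) ≤ (K : ℝ) * (((n / K : ℕ) : ℝ) + 1) := by exact_mod_cast h1'.le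
  have h3 : 0 ≤ (K : ℝ) * ((n / K : ℕ) : ℝ) := by positivity
  have hn : (0 : ℝ) ≤ n := by positivity
  generalize ((n / K : ℕ) : ℝ) = D at *
  have h4 : 0 ≤ (n - K * D) * (K - (n - K * D)) := mul_nonneg (by linarith) (by linarith)
  have h5 : (n : ℝ) ^ 2 - 2 * K * n ≤ 2 * K * (D * n - K * (D * (D + 1)) / 2) := by nlinarith
  have h6 : (n : ℝ) ^ 2 / (2 * K) - n = ((n : ℝ) ^ 2 - 2 * K * n) / (2 * K) := by
    field_simp
  rw [h6, div_le_iff₀ (by positivity)]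
  linarith

end Pool.Agent.X109.BR
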