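import Mathlib
import Pool.Agent.X109.BR.B

set_option autoImplicit false

open Finset

namespace Pool.Agent.X109.BR

/-- the block `[α u, (α + 1) u)` -/
def Bl (α u : ℕ) : Finset ℕ := Ico (α * u) ((α + 1) * u)

theorem mem_Bl {α u x : ℕ} : x ∈ Bl α u ↔ α * u ≤ x ∧ x < (α + 1) * u := by
  simp [Bl]

theorem card_Bl (α u : ℕ) : (Bl α u).card = u := by
  simp [Bl, Nat.add_mul]

/-- pairs in `X × Y` congruent modulo `m` -/
def Cg (m : ℕ) (X Y : Finset ℕ) : Finset (ℕ × ℕ) := (X ×ˢ Y).filter (fun p => p.1 ≡ p.2 [MOD m])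

theorem count_class (α u m : ℕ) (hm : 0 < m) (hmu : m ∣ u) (x : ℕ) :
    ((Bl α u).filter (fun y => x ≡ y [MOD m])).card = u / m := by
  obtain ⟨w, rfl⟩ := hmu
  have h1 := Nat.Ico_filter_modEq_card (α * (m * w)) ((α + 1) * (m * w)) hm x
  have e : (Bl α (m * w)).filter (fun y => x ≡ y [MOD m]) =
      (Ico (α * (m * w)) ((α + 1) * (m * w))).filter (fun y => y ≡ x [MOD m]) := by
    unfold Bl
    apply Finset.filter_congr
    intro y _
    exact ⟨fun h => h.symm, fun h => h.symm⟩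
  rw [e]
  rw [Nat.mul_div_cancel_left _ hm]
  have hm' : (m : ℚ) ≠ 0 := by positivity
  have e2 : ((((α + 1) * (m * w) : ℕ) : ℚ) - (x : ℚ)) / m = (((α * (m * w) : ℕ) : ℚ) - (x : ℚ)) / m + (w : ℤ) := by
    push_cast
    field_simp
    ring
  rw [e2, Int.ceil_add_intCast] at h1
  have h2 : (((Ico (α * (m * w)) ((α + 1) * (m * w))).filter (fun y => y ≡ x [MOD m])).card : ℤ) = w := by
    rw [h1]
    simp
  exact_mod_cast h2

theorem card_Cg (α β u m : ℕ) (hm : 0 < m) (hmu : m ∣ u) : (Cg m (Bl α u) (Bl β u)).card = u * (u / m) := by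
  unfold Cg
  rw [Finset.card_filter, Finset.sum_product]
  rw [Finset.sum_congr rfl (g := fun _ => u / m)]
  · simp [card_Bl]
  · intro x _
    rw [← Finset.card_filter]
    exact count_class β u m hm hmu x

/-- pairs `x < y` -/
def Lt (m : ℕ) (X Y : Finset ℕ) : Finset (ℕ × ℕ) := (Cg m X Y).filter (fun p => p.1 < p.2)

theorem card_Lt_diag (α u m : ℕ) (hm : 0 < m) (hmu : m ∣ u) :
    2 * (Lt m (Bl α u) (Bl α u)).card ≤ u * (u / m) := by
  rw [← card_Cg α α u m hm hmu]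
  have h1 : (Lt m (Bl α u) (Bl α u)).card = ((Lt m (Bl α u) (Bl α u)).image Prod.swap).card :=
    (Finset.card_image_of_injective _ Prod.swap_injective).symm
  have h2 : Disjoint (Lt m (Bl α u) (Bl α u)) ((Lt m (Bl α u) (Bl α u)).image Prod.swap) := by
    rw [Finset.disjoint_left]
    rintro ⟨x, y⟩ hx hy
    simp only [Lt, mem_filter, mem_image, Prod.exists, Prod.swap_prod_mk, Prod.mk.injEq] at hx hy
    obtain ⟨a, b, ⟨_, hab⟩, rfl, rfl⟩ := hy
    omega
  have h3 : (Lt m (Bl α u) (Bl α u)) ∪ ((Lt m (Bl α u) (Bl α u)).image Prod.swap) ⊆ Cg m (Bl α u) (Bl α u) := by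
    intro p hp
    rw [mem_union] at hp
    rcases hp with hp | hp
    · exact (mem_filter.1 hp).1
    · rw [mem_image] at hp
      obtain ⟨q, hq, rfl⟩ := hp
      have := (mem_filter.1 hq).1
      simp only [Cg, mem_filter, mem_product] at this ⊢
      exact ⟨⟨this.1.2, this.1.1⟩, this.2.symm⟩
  calc 2 * (Lt m (Bl α u) (Bl α u)).card = (Lt m (Bl α u) (Bl α u)).card + ((Lt m (Bl α u) (Bl α u)).image Prod.swap).card := by omega
    _ = ((Lt m (Bl α u) (Bl α u)) ∪ ((Lt m (Bl α u) (Bl α u)).image Prod.swap)).card := (Finset.card_union_of_disjoint h2).symm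
    _ ≤ _ := Finset.card_le_card h3

/-- number of progressions with position `i` in `X` and position `j` in `Y` -/
def NN (K n i j : ℕ) (X Y : Finset ℕ) : Finset (ℕ × ℕ) :=
  (P K n).filter (fun p => p.1 + i * p.2 ∈ X ∧ p.1 + j * p.2 ∈ Y)

theorem NN_le (K n i j : ℕ) (hK : 1 ≤ K) (hij : i < j) (X Y : Finset ℕ) :
    (NN K n i j X Y).card ≤ (Lt (j - i) X Y).card := by
  apply Finset.card_le_card_of_injOn (fun p => (p.1 + i * p.2, p.1 + j * p.2))
  · intro p hp
    simp only [NN, Finset.coe_filter, Set.mem_ofPred_eq, mem_P hK] at hp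
    obtain ⟨⟨h1, h2, h3⟩, h4, h5⟩ := hp
    have h6 : j * p.2 = i * p.2 + (j - i) * p.2 := by
      rw [← Nat.add_mul]; congr 1; omega
    simp only [Lt, Cg, Finset.coe_filter, mem_filter, mem_product, Set.mem_ofPred_eq]
    refine ⟨⟨⟨h4, h5⟩, ?_⟩, ?_⟩
    · rw [h6, ← add_assoc, Nat.modEq_iff_dvd' (Nat.le_add_right _ _)]
      exact ⟨p.2, by omega⟩
    · have : 0 < (j - i) * p.2 := Nat.mul_pos (by omega) h2
      omega
  · intro p hp q hq h
    simp only [NN, Finset.coe_filter, Set.mem_ofPred_eq, mem_P hK] at hp hq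
    simp only [Prod.mk.injEq] at h
    obtain ⟨h1, h2⟩ := h
    have e1 : j * p.2 = i * p.2 + (j - i) * p.2 := by
      rw [← Nat.add_mul]; congr 1; omega
    have e2 : j * q.2 = i * q.2 + (j - i) * q.2 := by
      rw [← Nat.add_mul]; congr 1; omega
    have e3 : (j - i) * p.2 = (j - i) * q.2 := by omega
    have e4 : p.2 = q.2 := Nat.eq_of_mul_eq_mul_left (by omega) e3
    rw [e4] at h1
    exact Prod.ext (by omega) e4

theorem NN_ge (K n i j : ℕ) (hK : 1 ≤ K) (hij : i < j) (hjK : j ≤ K) (X Y : Finset ℕ)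
    (hlt : ∀ x ∈ X, ∀ y ∈ Y, x < y)
    (hv : ∀ x ∈ X, ∀ y ∈ Y, ∀ D, (j - i) * D = y - x → i * D + 1 ≤ x ∧ y + (K - j) * D ≤ n) :
    (Cg (j - i) X Y).card ≤ (NN K n i j X Y).card := by
  apply Finset.card_le_card_of_injOn (fun p => (p.1 - i * ((p.2 - p.1) / (j - i)), (p.2 - p.1) / (j - i)))
  · intro p hp
    simp only [Cg, Finset.coe_filter, mem_product, Set.mem_ofPred_eq] at hp
    obtain ⟨⟨hx, hy⟩, hc⟩ := hp
    have h1 := hlt _ hx _ hy
    have h2 : (j - i) ∣ p.2 - p.1 := (Nat.modEq_iff_dvd' h1.le).1 hc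
    obtain ⟨D, hD⟩ := h2
    have h3 : (p.2 - p.1) / (j - i) = D := by
      rw [hD, Nat.mul_div_cancel_left _ (by omega)]
    obtain ⟨h4, h5⟩ := hv _ hx _ hy D hD.symm
    have hDpos : 1 ≤ D := by
      rcases Nat.eq_zero_or_pos D with h | h
      · rw [h, mul_zero] at hD; omega
      · exact h
    have h6 : j * D = i * D + (j - i) * D := by
      rw [← Nat.add_mul]; congr 1; omega
    have h7 : K * D = j * D + (K - j) * D := by
      rw [← Nat.add_mul]; congr 1; omega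
    simp only [h3, NN, Finset.coe_filter, Set.mem_ofPred_eq, mem_P hK]
    have e1 : p.1 - i * D + i * D = p.1 := by omega
    have e2 : p.1 - i * D + j * D = p.2 := by omega
    refine ⟨⟨by omega, hDpos, by omega⟩, ?_, ?_⟩
    · rw [e1]; exact hx
    · rw [e2]; exact hy
  · intro p hp q hq h
    simp only [Cg, Finset.coe_filter, mem_product, Set.mem_ofPred_eq] at hp hq
    obtain ⟨⟨hx, hy⟩, hc⟩ := hp
    obtain ⟨⟨hx', hy'⟩, hc'⟩ := hq
    have h1 := hlt _ hx _ hy
    have h1' := hlt _ hx' _ hy'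
    obtain ⟨D, hD⟩ := (Nat.modEq_iff_dvd' h1.le).1 hc
    obtain ⟨D', hD'⟩ := (Nat.modEq_iff_dvd' h1'.le).1 hc'
    have h3 : (p.2 - p.1) / (j - i) = D := by
      rw [hD, Nat.mul_div_cancel_left _ (by omega)]
    have h3' : (q.2 - q.1) / (j - i) = D' := by
      rw [hD', Nat.mul_div_cancel_left _ (by omega)]
    simp only [h3, h3', Prod.mk.injEq] at h
    obtain ⟨h4, h5⟩ := h
    subst h5
    obtain ⟨h6, _⟩ := hv _ hx _ hy D hD.symm
    obtain ⟨h6', _⟩ := hv _ hx' _ hy' D hD'.symm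
    have e1 : p.1 = q.1 := by omega
    have e2 : p.2 = q.2 := by omega
    exact Prod.ext e1 e2

end Pool.Agent.X109.BR
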