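import Mathlib
import Pool.Agent.X109.BR.C

set_option autoImplicit false

open Finset

namespace Pool.Agent.X109.BR

/-- indicator -/
def ch (X : Finset ℕ) (x : ℕ) : ℝ := if x ∈ X then 1 else 0

theorem sum_ch (K n i j : ℕ) (X Y : Finset ℕ) :
    ∑ q ∈ P K n, ch X (q.1 + i * q.2) * ch Y (q.1 + j * q.2) = ((NN K n i j X Y).card : ℝ) := by
  unfold NN
  rw [Finset.card_filter]
  push_cast
  apply Finset.sum_congr rfl
  intro q _
  unfold ch
  by_cases h1 : q.1 + i * q.2 ∈ X <;> by_cases h2 : q.1 + j * q.2 ∈ Y <;> simp [h1, h2]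

/-- the test function -/
noncomputable def ph (K u : ℕ) (t : ℝ) (x : ℕ) : ℝ :=
  ch (Bl (3 * K + 3) u) x - ch (Bl (3 * K + 1) u) x - t * ch (Bl (K * (3 * K + 2)) u) x

theorem Bl_disj {α β u x : ℕ} (h : α < β) (h1 : x ∈ Bl α u) (h2 : x ∈ Bl β u) : False := by
  rw [mem_Bl] at h1 h2
  have : (α + 1) * u ≤ β * u := Nat.mul_le_mul_right _ h
  omega

theorem abs_ph (K u : ℕ) (hK : 2 ≤ K) (t : ℝ) (h0 : 0 ≤ t) (h1 : t ≤ 1) (x : ℕ) : |ph K u t x| ≤ 1 := by
  have a3 : 3 * K + 3 < K * (3 * K + 2) := by nlinarith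
  unfold ph ch
  by_cases c1 : x ∈ Bl (3 * K + 1) u
  · have c2 : x ∉ Bl (3 * K + 3) u := fun h => Bl_disj (by omega) c1 h
    have c3 : x ∉ Bl (K * (3 * K + 2)) u := fun h => Bl_disj (by omega) c1 h
    simp [c1, c2, c3]
  · by_cases c2 : x ∈ Bl (3 * K + 3) u
    · have c3 : x ∉ Bl (K * (3 * K + 2)) u := fun h => Bl_disj (by omega) c2 h
      simp [c1, c2, c3]
    · by_cases c3 : x ∈ Bl (K * (3 * K + 2)) u
      · simp [c1, c2, c3, abs_of_nonneg h0, h1]
      · simp [c1, c2, c3]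

theorem lt_of_Bl {α β u x y : ℕ} (h : α < β) (h1 : x ∈ Bl α u) (h2 : y ∈ Bl β u) : x < y := by
  rw [mem_Bl] at h1 h2
  have : (α + 1) * u ≤ β * u := Nat.mul_le_mul_right _ h
  omega

theorem NN_rev (K n i j : ℕ) (hij : i < j) {α β u : ℕ} (h : α < β) :
    (NN K n i j (Bl β u) (Bl α u)).card = 0 := by
  rw [Finset.card_eq_zero, Finset.eq_empty_iff_forall_notMem]
  intro p hp
  simp only [NN, mem_filter] at hp
  have := lt_of_Bl h hp.2.2 hp.2.1
  have h2 : i * p.2 ≤ j * p.2 := Nat.mul_le_mul_right _ hij.le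
  omega

theorem Lt_le (m α β u : ℕ) (hm : 0 < m) (hmu : m ∣ u) : (Lt m (Bl α u) (Bl β u)).card ≤ u * (u / m) := by
  rw [← card_Cg α β u m hm hmu]
  exact Finset.card_le_card (Finset.filter_subset _ _)

section
variable (K n u : ℕ) (hK : 2 ≤ K) (hdiv : ∀ m, 1 ≤ m → m ≤ K → m ∣ u)
  (hn : (K + 1) * (K * (3 * K + 2) + 1) * u ≤ n)
include hK hdiv hn

theorem N12 (i j : ℕ) (hij : i < j) (hjK : j ≤ K) :
    u * (u / (j - i)) ≤ (NN K n i j (Bl (3 * K + 1) u) (Bl (3 * K + 3) u)).card := by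
  rw [← card_Cg (3 * K + 1) (3 * K + 3) u (j - i) (by omega) (hdiv _ (by omega) (by omega))]
  apply NN_ge K n i j (by omega) hij hjK
  · intro x hx y hy
    exact lt_of_Bl (by omega) hx hy
  · intro x hx y hy D hD
    have hlt := lt_of_Bl (by omega : 3 * K + 1 < 3 * K + 3) hx hy
    rw [mem_Bl] at hx hy
    have hu : 0 < u := by
      rcases Nat.eq_zero_or_pos u with h | h
      · subst h; omega
      · exact h
    have h1 : D ≤ y - x := by rw [← hD]; exact Nat.le_mul_of_pos_left _ (by omega)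
    have h2 : y - x ≤ 3 * u := by
      have e1 : (3 * K + 3 + 1) * u = (3 * K + 1) * u + 3 * u := by ring
      omega
    have h3 : i * D ≤ K * (3 * u) := Nat.mul_le_mul (by omega) (by omega)
    have h4 : (K - j) * D ≤ K * (3 * u) := Nat.mul_le_mul (by omega) (by omega)
    have e2 : (3 * K + 1) * u = K * (3 * u) + u := by ring
    have e3 : (3 * K + 3 + 1) * u + K * (3 * u) ≤ (K + 1) * (K * (3 * K + 2) + 1) * u := by
      have : (3 * K + 3 + 1) + K * 3 ≤ (K + 1) * (K * (3 * K + 2) + 1) := by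
        have h1 : 2 * (3 * K + 2) ≤ K * (3 * K + 2) := Nat.mul_le_mul_right _ hK
        have h2 : 1 * (K * (3 * K + 2) + 1) ≤ (K + 1) * (K * (3 * K + 2) + 1) :=
          Nat.mul_le_mul_right _ (by omega)
        omega
      calc (3 * K + 3 + 1) * u + K * (3 * u) = ((3 * K + 3 + 1) + K * 3) * u := by ring
        _ ≤ _ := Nat.mul_le_mul_right _ this
    constructor <;> omega

theorem N23 (i j : ℕ) (hij : i < j) (hjK : j ≤ K) (h : i = 0 ∨ (i = 1 ∧ j = K)) :
    u * (u / (j - i)) ≤ (NN K n i j (Bl (3 * K + 3) u) (Bl (K * (3 * K + 2)) u)).card := by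
  have a3 : 3 * K + 3 < K * (3 * K + 2) := by nlinarith
  rw [← card_Cg (3 * K + 3) (K * (3 * K + 2)) u (j - i) (by omega) (hdiv _ (by omega) (by omega))]
  apply NN_ge K n i j (by omega) hij hjK
  · intro x hx y hy
    exact lt_of_Bl a3 hx hy
  · intro x hx y hy D hD
    have hlt := lt_of_Bl a3 hx hy
    rw [mem_Bl] at hx hy
    have hu : 0 < u := by
      rcases Nat.eq_zero_or_pos u with h | h
      · subst h; omega
      · exact h
    have h1 : D ≤ y - x := by rw [← hD]; exact Nat.le_mul_of_pos_left _ (by omega)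
    have h4 : (K - j) * D ≤ K * y := Nat.mul_le_mul (by omega) (by omega)
    have h5 : y + (K - j) * D ≤ n := by
      have : (K + 1) * y ≤ (K + 1) * ((K * (3 * K + 2) + 1) * u) := Nat.mul_le_mul_left _ hy.2.le
      have e : (K + 1) * y = y + K * y := by ring
      have e' : (K + 1) * ((K * (3 * K + 2) + 1) * u) = (K + 1) * (K * (3 * K + 2) + 1) * u := by ring
      omega
    refine ⟨?_, h5⟩
    rcases h with rfl | ⟨rfl, rfl⟩
    · have : 0 < (3 * K + 3) * u := by positivity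
      omega
    · -- (j - 1) * D = y - x
      have h6 : (j - 1) * x ≥ (y - x) + (j - 1) := by
        have e1 : j * x = (j - 1) * x + x := by
          obtain ⟨l, rfl⟩ : ∃ l, j = l + 1 := ⟨j - 1, by omega⟩
          simp; ring
        have e2 : j * ((3 * j + 3) * u) ≤ j * x := Nat.mul_le_mul_left _ hx.1
        have e3 : j * ((3 * j + 3) * u) = (j * (3 * j + 2) + 1) * u + (j - 1) * u := by
          obtain ⟨l, rfl⟩ : ∃ l, j = l + 1 := ⟨j - 1, by omega⟩
          simp; ring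
        have e4 : j - 1 ≤ (j - 1) * u := Nat.le_mul_of_pos_right _ hu
        omega
      have h7 : (j - 1) * (D + 1) ≤ (j - 1) * x := by
        rw [Nat.mul_add, hD, mul_one]; exact h6
      have := Nat.le_of_mul_le_mul_left h7 (by omega : 0 < j - 1)
      omega

omit hdiv hn in
theorem N13 (i j : ℕ) (hi : 1 ≤ i) (hij : i < j) (hjK : j ≤ K) :
    (NN K n i j (Bl (3 * K + 1) u) (Bl (K * (3 * K + 2)) u)).card = 0 := by
  rw [Finset.card_eq_zero, Finset.eq_empty_iff_forall_notMem]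
  intro p hp
  simp only [NN, mem_filter, mem_P (by omega : 1 ≤ K), mem_Bl] at hp
  obtain ⟨⟨h1, h2, h3⟩, ⟨h4, h5⟩, h6, h7⟩ := hp
  -- K x < K (3K+2) u ≤ y ≤ i y, but j x - i y = (j - i) a > 0
  have e1 : j * (p.1 + i * p.2) = i * (p.1 + j * p.2) + (j - i) * p.1 := by
    obtain ⟨l, rfl⟩ : ∃ l, j = i + l := ⟨j - i, by omega⟩
    have : i + l - i = l := by omega
    rw [this]; ring
  have e2 : 0 < (j - i) * p.1 := Nat.mul_pos (by omega) (by omega)
  have e3 : j * (p.1 + i * p.2) ≤ K * (p.1 + i * p.2) := Nat.mul_le_mul_right _ hjK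
  have e4 : K * (p.1 + i * p.2) ≤ K * ((3 * K + 1 + 1) * u) := Nat.mul_le_mul_left _ h5.le
  have e5 : 1 * (p.1 + j * p.2) ≤ i * (p.1 + j * p.2) := Nat.mul_le_mul_right _ hi
  have e6 : K * ((3 * K + 1 + 1) * u) = K * (3 * K + 2) * u := by ring
  omega

theorem S_le (t : ℝ) (h0 : 0 ≤ t) (i j : ℕ) (hij : i < j) (hjK : j ≤ K) :
    ∑ q ∈ P K n, ph K u t (q.1 + i * q.2) * ph K u t (q.1 + j * q.2) ≤
      t ^ 2 * (u : ℝ) ^ 2 / 2 - (if i = 1 ∧ j = K then t * (u : ℝ) ^ 2 / (K - 1) else 0) := by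
  have a3 : 3 * K + 3 < K * (3 * K + 2) := by nlinarith
  set B1 := Bl (3 * K + 1) u with hB1
  set B2 := Bl (3 * K + 3) u with hB2
  set B3 := Bl (K * (3 * K + 2)) u with hB3
  have hexp : ∑ q ∈ P K n, ph K u t (q.1 + i * q.2) * ph K u t (q.1 + j * q.2) =
      ((NN K n i j B1 B1).card : ℝ) + (NN K n i j B2 B2).card + t ^ 2 * (NN K n i j B3 B3).card
      - (NN K n i j B1 B2).card - (NN K n i j B2 B1).card + t * (NN K n i j B1 B3).card
      + t * (NN K n i j B3 B1).card - t * (NN K n i j B2 B3).card - t * (NN K n i j B3 B2).card := by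
    simp only [← sum_ch]
    simp only [Finset.mul_sum, ← Finset.sum_add_distrib, ← Finset.sum_sub_distrib]
    apply Finset.sum_congr rfl
    intro q _
    unfold ph
    ring
  have hm : 0 < j - i := by omega
  have hmu := hdiv (j - i) (by omega) (by omega)
  set w : ℕ := u * (u / (j - i)) with hw
  have hwr : (w : ℝ) = (u : ℝ) ^ 2 / ((j - i : ℕ) : ℝ) := by
    rw [hw, Nat.cast_mul, Nat.cast_div hmu (by positivity)]
    ring
  have hwle : (w : ℝ) ≤ (u : ℝ) ^ 2 := by
    rw [hwr]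
    apply div_le_self (by positivity)
    exact_mod_cast hm
  have h11 : 2 * ((NN K n i j B1 B1).card : ℝ) ≤ w := by
    have := NN_le K n i j (by omega) hij B1 B1
    have h2 := card_Lt_diag (3 * K + 1) u (j - i) hm hmu
    exact_mod_cast (Nat.mul_le_mul_left 2 this).trans h2
  have h22 : 2 * ((NN K n i j B2 B2).card : ℝ) ≤ w := by
    have := NN_le K n i j (by omega) hij B2 B2
    have h2 := card_Lt_diag (3 * K + 3) u (j - i) hm hmu
    exact_mod_cast (Nat.mul_le_mul_left 2 this).trans h2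
  have h33 : 2 * ((NN K n i j B3 B3).card : ℝ) ≤ w := by
    have := NN_le K n i j (by omega) hij B3 B3
    have h2 := card_Lt_diag (K * (3 * K + 2)) u (j - i) hm hmu
    exact_mod_cast (Nat.mul_le_mul_left 2 this).trans h2
  have h12 : (w : ℝ) ≤ (NN K n i j B1 B2).card := by
    exact_mod_cast N12 K n u hK hdiv hn i j hij hjK
  have h21 : (0 : ℝ) ≤ (NN K n i j B2 B1).card := by positivity
  have h32 : (0 : ℝ) ≤ t * (NN K n i j B3 B2).card := by positivity
  have h31 : ((NN K n i j B3 B1).card : ℝ) = 0 := by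
    exact_mod_cast NN_rev K n i j hij (by omega : 3 * K + 1 < K * (3 * K + 2))
  have h33' : t ^ 2 * ((NN K n i j B3 B3).card : ℝ) ≤ t ^ 2 * (u : ℝ) ^ 2 / 2 := by
    have : ((NN K n i j B3 B3).card : ℝ) ≤ (u : ℝ) ^ 2 / 2 := by linarith
    calc t ^ 2 * ((NN K n i j B3 B3).card : ℝ) ≤ t ^ 2 * ((u : ℝ) ^ 2 / 2) :=
          mul_le_mul_of_nonneg_left this (by positivity)
      _ = _ := by ring
  have hmain : t * ((NN K n i j B1 B3).card : ℝ) - t * (NN K n i j B2 B3).card ≤
      - (if i = 1 ∧ j = K then t * (u : ℝ) ^ 2 / (K - 1) else 0) := by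
    rcases Nat.eq_zero_or_pos i with hi | hi
    · have h13 : ((NN K n i j B1 B3).card : ℝ) ≤ w := by
        exact_mod_cast (NN_le K n i j (by omega) hij B1 B3).trans (Lt_le (j - i) _ _ u hm hmu)
      have h23 : (w : ℝ) ≤ (NN K n i j B2 B3).card := by
        exact_mod_cast N23 K n u hK hdiv hn i j hij hjK (Or.inl hi)
      rw [if_neg (by omega)]
      have := mul_le_mul_of_nonneg_left (h13.trans h23) h0
      linarith
    · have h13 : ((NN K n i j B1 B3).card : ℝ) = 0 := by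
        exact_mod_cast N13 K n u hK i j hi hij hjK
      rw [h13]
      split_ifs with h
      · have h23 : (w : ℝ) ≤ (NN K n i j B2 B3).card := by
          exact_mod_cast N23 K n u hK hdiv hn i j hij hjK (Or.inr h)
        have h2 := mul_le_mul_of_nonneg_left h23 h0
        rw [hwr] at h2
        obtain ⟨rfl, rfl⟩ := h
        rw [Nat.cast_sub (by omega : 1 ≤ j)] at h2
        push_cast at h2
        have e : t * (u : ℝ) ^ 2 / ((j : ℝ) - 1) = t * ((u : ℝ) ^ 2 / ((j : ℝ) - 1)) := by ring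
        rw [e]
        linarith
      · have : (0 : ℝ) ≤ t * (NN K n i j B2 B3).card := by positivity
        linarith
  rw [hexp, h31]
  linarith

theorem sum_e2 (t : ℝ) (h0 : 0 ≤ t) :
    ∑ q ∈ P K n, e2 (fun i => ph K u t (q.1 + i * q.2)) (K + 1) ≤
      t ^ 2 * (u : ℝ) ^ 2 / 2 * ((K + 1) * K / 2) - t * (u : ℝ) ^ 2 / (K - 1) := by
  unfold e2
  rw [Finset.sum_comm]
  have h1 : ∀ j ∈ range (K + 1), ∑ q ∈ P K n, ∑ i ∈ range j, ph K u t (q.1 + i * q.2) * ph K u t (q.1 + j * q.2) ≤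
      ∑ i ∈ range j, (t ^ 2 * (u : ℝ) ^ 2 / 2 - (if i = 1 ∧ j = K then t * (u : ℝ) ^ 2 / (K - 1) else 0)) := by
    intro j hj
    rw [Finset.sum_comm]
    apply Finset.sum_le_sum
    intro i hi
    rw [mem_range] at hi hj
    exact S_le K n u hK hdiv hn t h0 i j hi (by omega)
  refine (Finset.sum_le_sum h1).trans (le_of_eq ?_)
  have h2 : ∀ j ∈ range (K + 1), ∑ i ∈ range j, (t ^ 2 * (u : ℝ) ^ 2 / 2 - (if i = 1 ∧ j = K then t * (u : ℝ) ^ 2 / (K - 1) else 0))
      = (j : ℝ) * (t ^ 2 * (u : ℝ) ^ 2 / 2) - (if j = K then t * (u : ℝ) ^ 2 / (K - 1) else 0) := by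
    intro j hj
    rw [Finset.sum_sub_distrib]
    congr 1
    · simp
    · split_ifs with h
      · subst h
        rw [Finset.sum_eq_single 1]
        · simp
        · intro i _ hi
          simp [hi]
        · intro h; exact absurd (mem_range.2 (by omega)) h
      · apply Finset.sum_eq_zero
        intro i _
        simp [h]
  rw [Finset.sum_congr rfl h2, Finset.sum_sub_distrib, ← Finset.sum_mul]
  have h3 : ∑ j ∈ range (K + 1), (j : ℝ) = (K + 1) * K / 2 := by
    have := Finset.sum_range_id_mul_two (K + 1)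
    have h4 : ((∑ j ∈ range (K + 1), j : ℕ) : ℝ) * 2 = ((K + 1) * K : ℕ) := by
      have h5 : K + 1 - 1 = K := by omega
      rw [h5] at this
      exact_mod_cast this
    push_cast at h4
    linarith
  rw [h3]
  congr 1
  · ring
  · rw [Finset.sum_ite_eq']
    simp

end

end Pool.Agent.X109.BR
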