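import Mathlib
import Pool.Agent.X109.BR.D

set_option autoImplicit false

open Finset

namespace Pool.Agent.X109.BR

theorem final_calc (r n K C0 η g U C N E2 pk pk1 : ℝ) (hpk : pk1 * r = pk) (hpk0 : 0 ≤ pk1)
    (hterm1 : r * N ≤ r * (n ^ 2 / (2 * K)))
    (hterm2 : 2 * η ^ 2 * E2 ≤ 2 * η ^ 2 * (- g * (n ^ 2 / C0 ^ 2 - 2 * n * U)))
    (hterm3 : r * C * η ^ 3 * N ≤ η ^ 2 * g * (n ^ 2 / C0 ^ 2)) :
    pk1 * (r * N + 2 * η ^ 2 * E2 + r * C * η ^ 3 * N) ≤
      (pk / (2 * K) - pk1 * (η ^ 2 * g / C0 ^ 2)) * n ^ 2 + pk1 * (4 * η ^ 2 * g * U) * n := by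
  calc pk1 * (r * N + 2 * η ^ 2 * E2 + r * C * η ^ 3 * N) ≤
      pk1 * (r * (n ^ 2 / (2 * K)) + 2 * η ^ 2 * (- g * (n ^ 2 / C0 ^ 2 - 2 * n * U)) + η ^ 2 * g * (n ^ 2 / C0 ^ 2)) :=
        mul_le_mul_of_nonneg_left (by linarith) hpk0
    _ = _ := by
      rw [← hpk]
      ring

theorem main_bound (K r : ℕ) (hK : 2 ≤ K) (hr : 2 ≤ r) :
    ∃ δ C : ℝ, δ < (1 / (r : ℝ)) ^ K / (2 * K) ∧ 0 ≤ C ∧ ∀ n : ℕ, ∃ χ : ℕ → Fin r,
      (MP K n χ : ℝ) ≤ δ * (n : ℝ) ^ 2 + C * n := by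
  obtain ⟨C, hC, hF⟩ := F_bound K
  have hKr : (2 : ℝ) ≤ K := by exact_mod_cast hK
  have hrr : (2 : ℝ) ≤ r := by exact_mod_cast hr
  set C0 : ℕ := (K + 1) * (K * (3 * K + 2) + 1) with hC0
  have hC0pos : 0 < C0 := by positivity
  set U : ℕ := Nat.factorial K with hU
  have hUpos : 0 < U := Nat.factorial_pos K
  set t : ℝ := 2 / (K * (K + 1) * (K - 1)) with ht
  have htpos : 0 < t := by
    have : (0 : ℝ) < K - 1 := by linarith
    positivity
  have ht1 : t ≤ 1 := by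
    rw [ht, div_le_one (by have : (0 : ℝ) < K - 1 := by linarith
                           positivity)]
    nlinarith [mul_nonneg (by linarith : (0 : ℝ) ≤ K - 2) (by linarith : (0 : ℝ) ≤ K), mul_nonneg (mul_nonneg (by linarith : (0 : ℝ) ≤ K - 2) (by linarith : (0 : ℝ) ≤ K)) (by linarith : (0 : ℝ) ≤ K + 1)]
  set g : ℝ := t / (2 * (K - 1)) with hg
  have hK1 : (0 : ℝ) < K - 1 := by linarith
  have hgpos : 0 < g := by positivity
  set η : ℝ := min 1 (g / ((C0 : ℝ) ^ 2 * (r * C + 1))) with hη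
  have hC0r : (1 : ℝ) ≤ C0 := by exact_mod_cast hC0pos
  have hden : (0 : ℝ) < (C0 : ℝ) ^ 2 * (r * C + 1) := by positivity
  have hηpos : 0 < η := lt_min one_pos (by positivity)
  have hη1 : η ≤ 1 := min_le_left _ _
  have hη2 : r * C * η ≤ g / (C0 : ℝ) ^ 2 := by
    have h1 : η ≤ g / ((C0 : ℝ) ^ 2 * (r * C + 1)) := min_le_right _ _
    calc r * C * η ≤ (r * C + 1) * η := by nlinarith
      _ ≤ (r * C + 1) * (g / ((C0 : ℝ) ^ 2 * (r * C + 1))) := mul_le_mul_of_nonneg_left h1 (by positivity)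
      _ = g / (C0 : ℝ) ^ 2 := by
        field_simp
  set ρ : ℝ := 1 / (r : ℝ) with hρ
  have hρpos : 0 < ρ := by positivity
  refine ⟨ρ ^ K / (2 * K) - ρ ^ (K + 1) * (η ^ 2 * g / (C0 : ℝ) ^ 2), ρ ^ (K + 1) * (4 * η ^ 2 * g * U),
    ?_, by positivity, ?_⟩
  · have : 0 < ρ ^ (K + 1) * (η ^ 2 * g / (C0 : ℝ) ^ 2) := by positivity
    linarith
  intro n
  set q : ℕ := n / (C0 * U) with hq
  set u : ℕ := q * U with hu
  have hdiv : ∀ m, 1 ≤ m → m ≤ K → m ∣ u := fun m h1 h2 => Dvd.dvd.mul_left (Nat.dvd_factorial h1 h2) _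
  have hn : (K + 1) * (K * (3 * K + 2) + 1) * u ≤ n := by
    rw [← hC0, hu]
    calc C0 * (q * U) = C0 * U * q := by ring
      _ ≤ n := Nat.mul_div_le _ _
  have hn2 : (n : ℝ) ≤ C0 * (u + U) := by
    have h1 : n < C0 * U * (q + 1) := Nat.lt_mul_div_succ n (by positivity)
    have h2 : (n : ℝ) < C0 * U * (q + 1) := by exact_mod_cast h1
    rw [hu]
    push_cast
    nlinarith
  obtain ⟨χ, hχ⟩ := exists_le_F (by omega : 0 < r) K n (by omega) (pr η (ph K u t))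
    (fun x c => pr_nonneg η hηpos.le hη1 _ (abs_ph K u hK t htpos.le ht1) x c)
    (fun x => pr_sum hr η _ x)
  refine ⟨χ, hχ.trans ((hF r n η (ph K u t) hr hηpos.le hη1 (abs_ph K u hK t htpos.le ht1)).trans ?_)⟩
  have he2 := sum_e2 K n u hK hdiv hn t htpos.le
  have hcard := card_P_le K n (by omega)
  have he3 : ∑ q ∈ P K n, e2 (fun i => ph K u t (q.1 + i * q.2)) (K + 1) ≤ - g * (u : ℝ) ^ 2 := by
    refine he2.trans (le_of_eq ?_)
    rw [hg, ht]
    field_simp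
    ring
  have hu2 : (n : ℝ) ^ 2 / (C0 : ℝ) ^ 2 - 2 * n * U ≤ (u : ℝ) ^ 2 := by
    have h1 : (n : ℝ) / C0 ≤ u + U := by
      rw [div_le_iff₀ (by positivity)]
      linarith
    have h2 : (0 : ℝ) ≤ (n : ℝ) / C0 := by positivity
    have h3 : (n : ℝ) / C0 ≤ n := div_le_self (by positivity) hC0r
    have h4 : (n : ℝ) ^ 2 / (C0 : ℝ) ^ 2 = (n / C0 : ℝ) ^ 2 := by rw [div_pow]
    rw [h4]
    have hUr : (0 : ℝ) < U := by exact_mod_cast hUpos
    have hur : (0 : ℝ) ≤ u := by positivity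
    rcases le_total ((n : ℝ) / C0) U with h5 | h5
    · have h6 : (n / C0 : ℝ) ^ 2 ≤ n * U := by
        rw [sq]
        exact mul_le_mul h3 h5 h2 (by positivity)
      have h7 : 0 ≤ (n : ℝ) * U := by positivity
      have h8 : 0 ≤ (u : ℝ) ^ 2 := by positivity
      linarith
    · have h6 : (n / C0 : ℝ) - U ≤ u := by linarith
      have h7 : ((n / C0 : ℝ) - U) ^ 2 ≤ (u : ℝ) ^ 2 := pow_le_pow_left₀ (by linarith) h6 2
      have h8 : (n / C0 : ℝ) * U ≤ n * U := mul_le_mul_of_nonneg_right h3 hUr.le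
      have h9 : 0 ≤ (U : ℝ) ^ 2 := by positivity
      have h10 : ((n / C0 : ℝ) - U) ^ 2 = (n / C0 : ℝ) ^ 2 - 2 * ((n / C0 : ℝ) * U) + (U : ℝ) ^ 2 := by ring
      linarith
  have hcard0 : (0 : ℝ) ≤ ((P K n).card : ℝ) := by positivity
  have hcard1 : ((P K n).card : ℝ) ≤ (n : ℝ) ^ 2 := by
    refine hcard.trans (div_le_self (by positivity) (by linarith))
  have hterm3 : r * C * η ^ 3 * ((P K n).card : ℝ) ≤ η ^ 2 * g * ((n : ℝ) ^ 2 / (C0 : ℝ) ^ 2) := by
    calc r * C * η ^ 3 * ((P K n).card : ℝ) = η ^ 2 * (r * C * η) * ((P K n).card : ℝ) := by ring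
      _ ≤ η ^ 2 * (g / (C0 : ℝ) ^ 2) * ((n : ℝ) ^ 2) := by
        apply mul_le_mul _ hcard1 hcard0 (by positivity)
        exact mul_le_mul_of_nonneg_left hη2 (by positivity)
      _ = _ := by ring
  have hterm2 : 2 * η ^ 2 * ∑ q ∈ P K n, e2 (fun i => ph K u t (q.1 + i * q.2)) (K + 1) ≤
      2 * η ^ 2 * (- g * ((n : ℝ) ^ 2 / (C0 : ℝ) ^ 2 - 2 * n * U)) := by
    apply mul_le_mul_of_nonneg_left _ (by positivity)
    refine he3.trans ?_
    have h9 := mul_le_mul_of_nonneg_left hu2 hgpos.le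
    rw [neg_mul, neg_mul]
    exact neg_le_neg h9
  have hterm1 : (r : ℝ) * ((P K n).card : ℝ) ≤ r * ((n : ℝ) ^ 2 / (2 * K)) :=
    mul_le_mul_of_nonneg_left hcard (by positivity)
  have e : ρ ^ (K + 1) * r = ρ ^ K := by
    rw [pow_succ, hρ]
    field_simp
  exact final_calc r n K C0 η g U C _ _ _ _ e (by positivity) hterm1 hterm2 hterm3

theorem step_bound {r : ℕ} (K n m : ℕ) (hK : 1 ≤ K) (χ χ' : ℕ → Fin r) (h : ∀ x, x ≠ m → χ' x = χ x) :
    MP K n χ' ≤ MP K n χ + (K + 1) * n := by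
  classical
  unfold MP
  have h1 : (P K n).filter (Mono K χ') ⊆
      (P K n).filter (Mono K χ) ∪
        (range (K + 1)).biUnion (fun i => (Icc 1 n).image (fun d => (m - i * d, d))) := by
    intro p hp
    rw [mem_filter] at hp
    rw [mem_union]
    by_cases hc : ∃ i ∈ range (K + 1), p.1 + i * p.2 = m
    · right
      obtain ⟨i, hi, him⟩ := hc
      rw [mem_biUnion]
      refine ⟨i, hi, ?_⟩
      rw [mem_image]
      have := (mem_P hK p).1 hp.1
      refine ⟨p.2, ?_, ?_⟩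
      · rw [mem_Icc]
        have h2 : p.2 ≤ K * p.2 := Nat.le_mul_of_pos_left _ hK
        omega
      · exact Prod.ext (by simp only; omega) rfl
    · left
      push Not at hc
      rw [mem_filter]
      refine ⟨hp.1, fun i hi => ?_⟩
      have h3 := hp.2 i hi
      rw [h _ (hc i hi), h p.1 (by simpa using hc 0 (by simp))] at h3
      exact h3
  have h2 : ((range (K + 1)).biUnion (fun i => (Icc 1 n).image (fun d => (m - i * d, d)))).card ≤ (K + 1) * n := by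
    calc _ ≤ ∑ i ∈ range (K + 1), ((Icc 1 n).image (fun d => (m - i * d, d))).card := card_biUnion_le
      _ ≤ ∑ i ∈ range (K + 1), n := by
        apply Finset.sum_le_sum
        intro i _
        exact card_image_le.trans (by simp)
      _ = (K + 1) * n := by simp
  exact (card_le_card h1).trans ((card_union_le _ _).trans (Nat.add_le_add_left h2 _))

theorem main_ivt (K r : ℕ) (hK : 2 ≤ K) (hr : 2 ≤ r) :
    ∃ δ C : ℝ, δ < (1 / (r : ℝ)) ^ K / (2 * K) ∧ 0 ≤ C ∧ ∀ n : ℕ, ∃ χ : ℕ → Fin r,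
      |(MP K n χ : ℝ) - δ * (n : ℝ) ^ 2| ≤ C * n := by
  obtain ⟨δ, C, hδ, hC, h⟩ := main_bound K r hK hr
  refine ⟨δ, C + (K + 2), hδ, by positivity, fun n => ?_⟩
  obtain ⟨χ0, h0⟩ := h n
  have hKr : (2 : ℝ) ≤ K := by exact_mod_cast hK
  set c0 : Fin r := ⟨0, by omega⟩
  set ψ : ℕ → ℕ → Fin r := fun m x => if x < m then c0 else χ0 x with hψ
  have hfull : δ * (n : ℝ) ^ 2 - n ≤ MP K n (ψ (n + 1)) := by
    classical
    have e : MP K n (ψ (n + 1)) = (P K n).card := by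
      unfold MP
      rw [Finset.filter_true_of_mem]
      intro p hp i hi
      have h1 := (mem_P (by omega : 1 ≤ K) p).1 hp
      have h2 : i * p.2 ≤ K * p.2 := Nat.mul_le_mul_right _ (by simpa [Nat.lt_succ_iff] using hi)
      simp only [hψ]
      rw [if_pos (by omega), if_pos (by omega)]
    rw [e]
    have h1 := card_P_ge K n (by omega)
    have h2 : δ ≤ 1 / (2 * K) := by
      refine hδ.le.trans ?_
      apply div_le_div_of_nonneg_right _ (by positivity)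
      apply pow_le_one₀ (by positivity)
      rw [div_le_one (by positivity)]
      exact_mod_cast (by omega : 1 ≤ r)
    have h3 : δ * (n : ℝ) ^ 2 ≤ (n : ℝ) ^ 2 / (2 * K) := by
      calc δ * (n : ℝ) ^ 2 ≤ 1 / (2 * K) * (n : ℝ) ^ 2 := mul_le_mul_of_nonneg_right h2 (by positivity)
        _ = _ := by ring
    linarith
  have hex : ∃ m, δ * (n : ℝ) ^ 2 - n ≤ MP K n (ψ m) := ⟨_, hfull⟩
  classical
  obtain ⟨hm1, hm2⟩ : (δ * (n : ℝ) ^ 2 - n ≤ MP K n (ψ (Nat.find hex))) ∧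
      ∀ m' < Nat.find hex, ¬ (δ * (n : ℝ) ^ 2 - n ≤ MP K n (ψ m')) :=
    ⟨Nat.find_spec hex, fun m' hm' => Nat.find_min hex hm'⟩
  generalize Nat.find hex = m at hm1 hm2
  refine ⟨ψ m, ?_⟩
  have hn0 : (0 : ℝ) ≤ n := by positivity
  rw [abs_le]
  constructor
  · have : 0 ≤ (C + (K + 1)) * (n : ℝ) := by positivity
    nlinarith
  · rcases m with _ | m
    · have e : ψ 0 = χ0 := by
        funext x
        simp [hψ]
      rw [e]
      have : 0 ≤ ((K : ℝ) + 2) * (n : ℝ) := by positivity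
      nlinarith
    · have h1 := hm2 m (Nat.lt_succ_self m)
      rw [not_le] at h1
      have h2 : MP K n (ψ (m + 1)) ≤ MP K n (ψ m) + (K + 1) * n := by
        apply step_bound K n m (by omega)
        intro x hx
        simp only [hψ]
        by_cases hlt : x < m
        · rw [if_pos (by omega), if_pos hlt]
        · rw [if_neg (by omega), if_neg hlt]
      have h3 : (MP K n (ψ (m + 1)) : ℝ) ≤ MP K n (ψ m) + (K + 1) * n := by exact_mod_cast h2
      have : 0 ≤ C * (n : ℝ) := by positivity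
      nlinarith

end Pool.Agent.X109.BR
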